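import Mathlib

namespace Pool.Agent.Results.MP_90534d_pr.InfeasibleCoefficients

open MeasureTheory

/-! ### Definitions -/

/-- `L = A 𝒪^d` for some invertible `A`, where `𝒪 = {x : ‖x‖ ≤ 1}` is the ring of integers. -/
def IsLattice (p d : ℕ) [Fact p.Prime] (L : AddSubgroup (Fin d → ℚ_[p])) : Prop :=
  ∃ A : Matrix (Fin d) (Fin d) ℚ_[p], IsUnit A.det ∧
    (L : Set (Fin d → ℚ_[p])) = (fun x => A.mulVec x) '' {x | ∀ i, ‖x i‖ ≤ 1}

/-- `φ = φ_L` for some lattice `L`: `μ` is the normalised Haar measure of `L`, that is, the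
translation invariant Borel probability measure on `L`, and
`φ(v) = - log_p μ {x : val x_i ≥ v_i for all i}`. -/
def IsTailFunction (p d : ℕ) [Fact p.Prime] (φ : (Fin d → ℤ) → ℝ) : Prop :=
  ∃ L : AddSubgroup (Fin d → ℚ_[p]), IsLattice p d L ∧
    letI : MeasurableSpace L := borel L
    ∃ μ : Measure L, IsProbabilityMeasure μ ∧ (∀ g : L, μ.map (fun x => g + x) = μ) ∧
      ∀ v : Fin d → ℤ, φ v =
        -Real.logb p (μ.real {x : L | ∀ i, ((v i : ℤ) : WithTop ℤ) ≤ Padic.addValuation (x.1 i)})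

/-- `φ` is the restriction to `ℤ^d` of a tropical polynomial supported on the cube with integer
supermodular coefficients `c_I`. -/
def IsTropical (d : ℕ) (φ : (Fin d → ℤ) → ℝ) : Prop :=
  ∃ c : Finset (Fin d) → ℤ, c ∅ = 0 ∧ (∀ I J, c I + c J ≤ c (I ∪ J) + c (I ∩ J)) ∧
    ∀ v : Fin d → ℤ, φ v =
      ((Finset.univ.sup' Finset.univ_nonempty fun I : Finset (Fin d) => ∑ i ∈ I, v i - c I : ℤ) : ℝ)

/-! ### Indices of subgroups -/

section index
variable {G : Type*} [AddCommGroup G]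

lemma sup_inf_index (H K : AddSubgroup G) :
    (H ⊔ K).index * (H ⊓ K).index = H.index * K.index := by
  have h1 := AddSubgroup.relIndex_mul_index (inf_le_right : H ⊓ K ≤ K)
  have h2 := AddSubgroup.relIndex_mul_index (le_sup_left : H ≤ H ⊔ K)
  rw [AddSubgroup.inf_relIndex_right] at h1
  rw [AddSubgroup.relIndex_sup_left] at h2
  rw [← h1, ← h2]
  ring

lemma index_le {H K : AddSubgroup G} (h : H ≤ K) (hH : H.index ≠ 0) : K.index ≤ H.index :=
  Nat.le_of_dvd (Nat.pos_of_ne_zero hH) (AddSubgroup.index_dvd_of_le h)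

/-- The Ingleton inequality for indices of subgroups of an abelian group. -/
lemma ingleton (A B C D : AddSubgroup G) (hA : A.index ≠ 0) (hB : B.index ≠ 0)
    (hC : C.index ≠ 0) (hD : D.index ≠ 0) :
    A.index * B.index * (C ⊓ D).index * (A ⊓ B ⊓ C).index * (A ⊓ B ⊓ D).index ≤
      (A ⊓ C).index * (B ⊓ C).index * (A ⊓ D).index * (B ⊓ D).index * (A ⊓ B).index := by
  have inf0 : ∀ {H K : AddSubgroup G}, H.index ≠ 0 → K.index ≠ 0 → (H ⊓ K).index ≠ 0 := by
    intro H K h1 h2 h3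
    have := sup_inf_index H K
    rw [h3, mul_zero] at this
    exact mul_ne_zero h1 h2 this.symm
  have step : ∀ C : AddSubgroup G, C.index ≠ 0 →
      ((A ⊔ B) ⊓ C).index * (A ⊓ B ⊓ C).index ≤ (A ⊓ C).index * (B ⊓ C).index := by
    intro C hC
    have e1 := sup_inf_index (A ⊓ C) (B ⊓ C)
    have e2 : A ⊓ C ⊓ (B ⊓ C) = A ⊓ B ⊓ C := by
      rw [inf_inf_inf_comm, inf_idem]
    rw [e2] at e1
    rw [← e1]
    have e3 : (A ⊓ C) ⊔ (B ⊓ C) ≤ (A ⊔ B) ⊓ C :=
      sup_le (inf_le_inf_right _ le_sup_left) (inf_le_inf_right _ le_sup_right)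
    have e4 : ((A ⊓ C) ⊔ (B ⊓ C)).index ≠ 0 := by
      intro h
      rw [h, zero_mul] at e1
      exact mul_ne_zero (inf0 hA hC) (inf0 hB hC) e1.symm
    exact Nat.mul_le_mul_right _ (index_le e3 e4)
  have hM : (A ⊔ B).index ≠ 0 := by
    intro h
    have := sup_inf_index A B
    rw [h, zero_mul] at this
    exact mul_ne_zero hA hB this.symm
  have h1 := step C hC
  have h2 := step D hD
  have h3 : (A ⊔ B).index * (C ⊓ D).index ≤ ((A ⊔ B) ⊓ C).index * ((A ⊔ B) ⊓ D).index := by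
    have e1 := sup_inf_index ((A ⊔ B) ⊓ C) ((A ⊔ B) ⊓ D)
    rw [← e1]
    have e2 : ((A ⊔ B) ⊓ C) ⊔ ((A ⊔ B) ⊓ D) ≤ A ⊔ B := sup_le inf_le_left inf_le_left
    have e3 : (A ⊔ B) ⊓ C ⊓ ((A ⊔ B) ⊓ D) ≤ C ⊓ D :=
      inf_le_inf inf_le_right inf_le_right
    have e4 : (((A ⊔ B) ⊓ C) ⊔ ((A ⊔ B) ⊓ D)).index ≠ 0 := by
      intro h
      rw [h, zero_mul] at e1
      exact mul_ne_zero (inf0 hM hC) (inf0 hM hD) e1.symm
    exact Nat.mul_le_mul (index_le e2 e4) (index_le e3 (inf0 (inf0 hM hC) (inf0 hM hD)))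
  have h4 := sup_inf_index A B
  calc A.index * B.index * (C ⊓ D).index * (A ⊓ B ⊓ C).index * (A ⊓ B ⊓ D).index
      = (A ⊓ B).index * (((A ⊔ B).index * (C ⊓ D).index) *
          ((A ⊓ B ⊓ C).index * (A ⊓ B ⊓ D).index)) := by rw [← h4]; ring
    _ ≤ (A ⊓ B).index * ((((A ⊔ B) ⊓ C).index * ((A ⊔ B) ⊓ D).index) *
          ((A ⊓ B ⊓ C).index * (A ⊓ B ⊓ D).index)) := by gcongr
    _ = (A ⊓ B).index * ((((A ⊔ B) ⊓ C).index * (A ⊓ B ⊓ C).index) *
          (((A ⊔ B) ⊓ D).index * (A ⊓ B ⊓ D).index)) := by ring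
    _ ≤ (A ⊓ B).index * (((A ⊓ C).index * (B ⊓ C).index) *
          ((A ⊓ D).index * (B ⊓ D).index)) := by gcongr
    _ = _ := by ring

variable [MeasurableSpace G] [MeasurableAdd G]

/-- A measurable subgroup of positive measure has finite index `1 / μ H`. -/
lemma index_mul (μ : Measure G) [IsProbabilityMeasure μ] [μ.IsAddLeftInvariant]
    (H : AddSubgroup G) (hH : MeasurableSet (H : Set G)) (h0 : μ H ≠ 0) :
    H.index ≠ 0 ∧ (H.index : ℝ) * μ.real H = 1 := by
  have hfib : ∀ q : G ⧸ H, ((QuotientAddGroup.mk : G → G ⧸ H) ⁻¹' {q}) =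
      (fun x => -(Quotient.out q) + x) ⁻¹' (H : Set G) := by
    intro q
    ext x
    simp only [Set.mem_preimage, Set.mem_singleton_iff, SetLike.mem_coe]
    rw [← QuotientAddGroup.eq]
    constructor
    · intro h
      rw [h]
      exact Quotient.out_eq q
    · intro h
      rw [← h]
      exact Quotient.out_eq q
  have hmeas : ∀ q : G ⧸ H, μ ((QuotientAddGroup.mk : G → G ⧸ H) ⁻¹' {q}) = μ H := by
    intro q
    rw [hfib, measure_preimage_add]
  have hms : ∀ q : G ⧸ H, MeasurableSet ((QuotientAddGroup.mk : G → G ⧸ H) ⁻¹' {q}) := by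
    intro q
    rw [hfib]
    exact (measurable_const_add _) hH
  have hfin : Finite (G ⧸ H) := by
    by_contra hcon
    rw [not_finite_iff_infinite] at hcon
    have hb : ∀ n : ℕ, (n : ENNReal) * μ H ≤ 1 := by
      intro n
      obtain ⟨s, hs⟩ := Infinite.exists_subset_card_eq (G ⧸ H) n
      have h1 : μ (⋃ q ∈ s, (QuotientAddGroup.mk : G → G ⧸ H) ⁻¹' {q}) = (n : ENNReal) * μ H := by
        rw [measure_biUnion_finset]
        · rw [Finset.sum_congr rfl fun q _ => hmeas q, Finset.sum_const, hs, nsmul_eq_mul]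
        · intro a _ b _ hab
          refine Disjoint.preimage _ ?_
          exact Set.disjoint_singleton.2 hab
        · intro q _
          exact hms q
      rw [← h1]
      exact prob_le_one
    have h2 : μ H ≠ ⊤ := measure_ne_top _ _
    obtain ⟨n, hn⟩ := ENNReal.exists_nat_mul_gt h0 ENNReal.one_ne_top
    exact absurd (hb n) (not_le.2 hn)
  have hfi : H.FiniteIndex := AddSubgroup.finiteIndex_of_finite_quotient
  refine ⟨hfi.index_ne_zero, ?_⟩
  have h3 := H.index_mul_measure hH μ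
  rw [measure_univ] at h3
  have h4 := congrArg ENNReal.toReal h3
  rw [ENNReal.toReal_mul, ENNReal.toReal_natCast, ENNReal.toReal_one] at h4
  exact h4

end index

/-! ### The coefficients -/

/-- The coefficients: `0` on sets of size at most one and on `{2,3}`, `1` on the other pairs,
`2` on triples and `4` on the full set. -/
def c (I : Finset (Fin 4)) : ℤ :=
  if I.card ≤ 1 then 0 else if I.card = 2 then (if I = {2, 3} then 0 else 1) else
    if I.card = 3 then 2 else 4

def Pz (v : Fin 4 → ℤ) : ℤ :=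
  Finset.univ.sup' Finset.univ_nonempty fun I : Finset (Fin 4) => ∑ i ∈ I, v i - c I

lemma c_super : ∀ I J, c I + c J ≤ c (I ∪ J) + c (I ∩ J) := by decide

/-- The vector `10` on `I`, `-10` off `I`. -/
def w (I : Finset (Fin 4)) (i : Fin 4) : ℤ := if i ∈ I then 10 else -10

lemma w_sup (I J : Finset (Fin 4)) : w I ⊔ w J = w (I ∪ J) := by
  funext i
  simp only [Pi.sup_apply, w, Finset.mem_union]
  by_cases h1 : i ∈ I <;> by_cases h2 : i ∈ J <;> simp [h1, h2]

lemma Pz_w : ∀ I : Finset (Fin 4), Pz (w I) = 10 * I.card - c I := by decide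

section padic
variable (p : ℕ) [Fact p.Prime] (L : AddSubgroup (Fin 4 → ℚ_[p]))

/-- The subgroup `{x ∈ L : val x_i ≥ v_i}`. -/
def T (v : Fin 4 → ℤ) : AddSubgroup L where
  carrier := {x : L | ∀ i, ((v i : ℤ) : WithTop ℤ) ≤ Padic.addValuation (x.1 i)}
  add_mem' := by
    intro a b ha hb i
    refine le_trans (le_min (ha i) (hb i)) ?_
    exact Padic.addValuation.map_add _ _
  zero_mem' := by
    intro i
    simp
  neg_mem' := by
    intro a ha i
    have := ha i
    simpa [AddValuation.map_neg] using this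

lemma T_inf (v u : Fin 4 → ℤ) : T p L v ⊓ T p L u = T p L (v ⊔ u) := by
  ext x
  simp only [AddSubgroup.mem_inf]
  change (∀ i, _) ∧ (∀ i, _) ↔ ∀ i, _
  constructor
  · rintro ⟨h1, h2⟩ i
    rw [Pi.sup_apply]
    rcases le_total (v i) (u i) with h | h
    · rw [sup_eq_right.2 h]; exact h2 i
    · rw [sup_eq_left.2 h]; exact h1 i
  · intro h
    refine ⟨fun i => le_trans ?_ (h i), fun i => le_trans ?_ (h i)⟩
    · exact WithTop.coe_le_coe.2 (by rw [Pi.sup_apply]; exact le_sup_left)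
    · exact WithTop.coe_le_coe.2 (by rw [Pi.sup_apply]; exact le_sup_right)

lemma val_iff (n : ℤ) (x : ℚ_[p]) :
    ((n : ℤ) : WithTop ℤ) ≤ Padic.addValuation x ↔ ‖x‖ ≤ (p : ℝ) ^ (-n) := by
  by_cases hx : x = 0
  · rw [hx]
    simp only [norm_zero, AddValuation.map_zero, le_top, true_iff]
    positivity
  · have hp1 : (1 : ℝ) < p := by exact_mod_cast (Fact.out : p.Prime).one_lt
    rw [Padic.addValuation.apply hx, WithTop.coe_le_coe, Padic.norm_eq_zpow_neg_valuation hx,
      zpow_le_zpow_iff_right₀ hp1, neg_le_neg_iff]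

lemma T_closed (v : Fin 4 → ℤ) : IsClosed (T p L v : Set L) := by
  have h1 : (T p L v : Set L) = ⋂ i, {x : L | ‖x.1 i‖ ≤ (p : ℝ) ^ (-(v i))} := by
    ext x
    simp only [Set.mem_iInter, Set.mem_ofPred_eq]
    exact forall_congr' fun i => val_iff p (v i) (x.1 i)
  rw [h1]
  refine isClosed_iInter fun i => isClosed_le ?_ continuous_const
  exact continuous_norm.comp ((continuous_apply i).comp continuous_subtype_val)

end padic

/-- For `d = 4` and every `ℚ_p` there is a restriction of a tropical polynomial with integer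
supermodular coefficients which is not the tail function of any lattice. -/
theorem result (p : ℕ) [Fact p.Prime] :
    ∃ φ : (Fin 4 → ℤ) → ℝ, IsTropical 4 φ ∧ ¬ IsTailFunction p 4 φ := by
  refine ⟨fun v => (Pz v : ℝ), ⟨c, by decide, c_super, fun v => rfl⟩, ?_⟩
  rintro ⟨L, _, hL⟩
  let _ : MeasurableSpace L := borel L
  have : BorelSpace L := ⟨rfl⟩
  obtain ⟨μ, hprob, hinv, hφ⟩ := hL
  have hinv' : μ.IsAddLeftInvariant := ⟨hinv⟩
  have hp1 : (1 : ℝ) < p := by exact_mod_cast (Fact.out : p.Prime).one_lt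
  have hp0 : (0 : ℝ) < p := by linarith
  -- the value at `w I`
  have hval : ∀ I : Finset (Fin 4), 10 * (I.card : ℤ) - c I ≠ 0 →
      (T p L (w I)).index ≠ 0 ∧
        ((T p L (w I)).index : ℝ) = (p : ℝ) ^ (10 * (I.card : ℤ) - c I) := by
    intro I hI
    have h1 : ((Pz (w I) : ℤ) : ℝ) = -Real.logb p (μ.real (T p L (w I) : Set L)) := hφ (w I)
    rw [Pz_w] at h1
    have hne : μ.real (T p L (w I) : Set L) ≠ 0 := by
      intro h0
      rw [h0, Real.logb_zero, neg_zero] at h1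
      exact hI (by exact_mod_cast h1)
    have hpos : 0 < μ.real (T p L (w I) : Set L) := lt_of_le_of_ne measureReal_nonneg hne.symm
    have h2 : μ.real (T p L (w I) : Set L) = (p : ℝ) ^ (-(10 * (I.card : ℤ) - c I)) := by
      have h3 : Real.logb p (μ.real (T p L (w I) : Set L)) =
          ((-(10 * (I.card : ℤ) - c I) : ℤ) : ℝ) := by
        rw [Int.cast_neg]; linarith
      rw [← Real.rpow_intCast, ← h3, Real.rpow_logb hp0 hp1.ne' hpos]
    have h0 : μ (T p L (w I) : Set L) ≠ 0 := by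
      intro h
      rw [measureReal_def, h] at hne
      exact hne rfl
    obtain ⟨h4, h5⟩ := index_mul μ (T p L (w I)) (T_closed p L (w I)).measurableSet h0
    refine ⟨h4, ?_⟩
    rw [h2, zpow_neg] at h5
    have h6 : (p : ℝ) ^ (10 * (I.card : ℤ) - c I) ≠ 0 := (zpow_pos hp0 _).ne'
    field_simp at h5
    exact h5
  have hA := hval {0} (by decide)
  have hB := hval {1} (by decide)
  have hC := hval {2} (by decide)
  have hD := hval {3} (by decide)
  have hing := ingleton (T p L (w {0})) (T p L (w {1})) (T p L (w {2})) (T p L (w {3}))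
    hA.1 hB.1 hC.1 hD.1
  simp only [T_inf, w_sup] at hing
  have hing' : ((T p L (w {0})).index : ℝ) * (T p L (w {1})).index *
      (T p L (w ({2} ∪ {3}))).index * (T p L (w ({0} ∪ {1} ∪ {2}))).index *
      (T p L (w ({0} ∪ {1} ∪ {3}))).index ≤
      ((T p L (w ({0} ∪ {2}))).index : ℝ) * (T p L (w ({1} ∪ {2}))).index *
      (T p L (w ({0} ∪ {3}))).index * (T p L (w ({1} ∪ {3}))).index *
      (T p L (w ({0} ∪ {1}))).index := by exact_mod_cast hing
  rw [hA.2, hB.2, (hval ({2} ∪ {3}) (by decide)).2, (hval ({0} ∪ {1} ∪ {2}) (by decide)).2,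
    (hval ({0} ∪ {1} ∪ {3}) (by decide)).2, (hval ({0} ∪ {2}) (by decide)).2,
    (hval ({1} ∪ {2}) (by decide)).2, (hval ({0} ∪ {3}) (by decide)).2,
    (hval ({1} ∪ {3}) (by decide)).2, (hval ({0} ∪ {1}) (by decide)).2] at hing'
  rw [← zpow_add₀ hp0.ne', ← zpow_add₀ hp0.ne', ← zpow_add₀ hp0.ne', ← zpow_add₀ hp0.ne',
    ← zpow_add₀ hp0.ne', ← zpow_add₀ hp0.ne', ← zpow_add₀ hp0.ne', ← zpow_add₀ hp0.ne',
    zpow_le_zpow_iff_right₀ hp1] at hing'
  revert hing'
  decide

end Pool.Agent.Results.MP_90534d_pr.InfeasibleCoefficients
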